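import Mathlib
import Pool.Agent.H394R3.ET.Stmts
import Pool.Agent.H96R3.BC.Basic

/-!
# PROJECT ET, task JUNK: composite numbers and responses in a cell of a window
-/

set_option autoImplicit false

open Finset

namespace Pool.Agent.H475R3.ET

open Pool.Agent.H96R3.BC (vv UU CC cf Wts Sol NN mem_CC UU_nonneg UU_sq UU_succ_sq_le vv_mem vv_nonneg
  one_le_UU UU_pos UU_mono)
open Pool.Agent.H394R3.ET

/-- size of a cell -/
lemma card_CC (Q J : ℕ) : (CC Q J).card = (J + 1) ^ (2 * Q) - J ^ (2 * Q) := by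
  unfold CC; simp

lemma card_CC_ge {Q J : ℕ} (hQ : 1 ≤ Q) : (J : ℝ) ^ (2 * Q - 1) ≤ (CC Q J).card := by
  rw [card_CC]
  have h1 : J ^ (2 * Q) + J ^ (2 * Q - 1) ≤ (J + 1) ^ (2 * Q) := by
    obtain ⟨k, hk⟩ : ∃ k, 2 * Q = k + 1 := ⟨2 * Q - 1, by omega⟩
    rw [hk, Nat.add_sub_cancel, pow_succ, pow_succ]
    have h2 : J ^ k ≤ (J + 1) ^ k := Nat.pow_le_pow_left (by omega) k
    nlinarith
  have h3 : J ^ (2 * Q - 1) ≤ (J + 1) ^ (2 * Q) - J ^ (2 * Q) := by omega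
  exact_mod_cast h3

/-- coefficients of composite numbers -/
lemma cf_bound {y : ℕ → ℝ} {Q R J n : ℕ} {r : ℝ} (hJ : 1 ≤ J) (hr : 0 ≤ r)
    (hJR : (J + 1) ^ (2 * Q) ≤ 2 * R ^ (2 * Q))
    (hy : ∀ q : ℕ, q.Prime → q ≤ R ^ (2 * Q) → |y q| ≤ (q : ℝ) ^ (-r)) (hn : n ∈ KC Q J) :
    |cf y n| ≤ (J : ℝ) ^ (-(2 * Q * r)) := by
  unfold KC at hn
  rw [Finset.mem_filter, mem_CC] at hn
  obtain ⟨⟨h1, h2⟩, h3⟩ := hn
  have hJ0 : (0 : ℝ) < J := by exact_mod_cast hJ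
  have hE : 0 ≤ (J : ℝ) ^ (-(2 * Q * r)) := by positivity
  unfold cf
  split_ifs with hsq
  swap
  · rw [abs_zero]; exact hE
  rw [Finset.abs_prod]
  have hn1 : 1 < n := by
    have : 1 ≤ J ^ (2 * Q) := Nat.one_le_pow _ _ hJ
    omega
  have hfac : ∀ q ∈ n.primeFactors, |y q| ≤ (q : ℝ) ^ (-r) := by
    intro q hq
    have hqp := Nat.prime_of_mem_primeFactors hq
    have hqd := Nat.dvd_of_mem_primeFactors hq
    apply hy q hqp
    obtain ⟨m, hm⟩ := hqd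
    have hm1 : m ≠ 0 := by rintro rfl; omega
    have hm2 : m ≠ 1 := by
      rintro rfl
      rw [mul_one] at hm
      exact h3 (hm ▸ hqp)
    have hm3 : 2 ≤ m := by omega
    have : q * 2 ≤ n := by rw [hm]; exact Nat.mul_le_mul_left q hm3
    omega
  calc ∏ q ∈ n.primeFactors, |y q| ≤ ∏ q ∈ n.primeFactors, (q : ℝ) ^ (-r) :=
        Finset.prod_le_prod (fun _ _ => abs_nonneg _) hfac
    _ = (∏ q ∈ n.primeFactors, (q : ℝ)) ^ (-r) :=
        Real.finsetProd_rpow _ _ (fun q _ => Nat.cast_nonneg q) _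
    _ = (n : ℝ) ^ (-r) := by
        rw [← Nat.cast_prod, Nat.prod_primeFactors_of_squarefree hsq]
    _ ≤ ((J : ℝ) ^ (2 * Q)) ^ (-r) := by
        apply Real.rpow_le_rpow_of_nonpos (by positivity) _ (by linarith)
        exact_mod_cast h1.le
    _ = (J : ℝ) ^ (-(2 * Q * r)) := by
        rw [← Real.rpow_natCast, ← Real.rpow_mul hJ0.le]
        congr 1
        push_cast
        ring

theorem taskJunk : TaskJunk := by
  refine ⟨8, fun Q hQ C hC j₀ hj₀ => ⟨1 + ((j₀ : ℝ) ^ Q * 2 ^ (3 * Q + 2) + 2) * C, by positivity, ?_⟩⟩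
  intro a0 w hw s x f hs ho R J r hjR hRJ hJR hr0 hr1 hy
  have hQ1 : 1 ≤ Q := by omega
  have hj1 : 1 ≤ j₀ := by omega
  have hjJ : j₀ ≤ J := hjR.trans hRJ
  have hJ1 : 1 ≤ J := by omega
  have hJ0 : (0 : ℝ) < J := by exact_mod_cast hJ1
  have hJ1r : (1 : ℝ) ≤ J := by exact_mod_cast hJ1
  set y : ℕ → ℝ := fun p => s p + x p with hydef
  set E : ℝ := (J : ℝ) ^ (-(2 * Q * r)) with hE
  have hE0 : 0 < E := Real.rpow_pos_of_pos hJ0 _
  set N : ℝ := ((CC Q J).card : ℝ) with hN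
  have hNge : (J : ℝ) ^ (2 * Q - 1) ≤ N := card_CC_ge hQ1
  have hN0 : 0 < N := lt_of_lt_of_le (by positivity) hNge
  have hlog : 1 ≤ Real.log J := by
    have h3 : (3 : ℝ) ≤ J := by exact_mod_cast (hj₀.trans hjJ)
    rw [Real.le_log_iff_exp_le hJ0]
    have := Real.exp_one_lt_d9
    linarith
  set U : ℝ := UU j₀ J with hU
  set U' : ℝ := UU j₀ (J + 1) with hU'
  have hU1 : 1 ≤ U := one_le_UU hj1 hjJ
  have hUU' : U ≤ U' := UU_mono (by omega)
  have hU0 : 0 < U := by linarith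
  have hU'2 : U' ^ 2 ≤ 2 * U ^ 2 := UU_succ_sq_le hJ1
  have hU'le : U' ≤ 2 * U := by nlinarith
  have hU'0 : 0 < U' := by linarith
  -- composites
  have hcf : ∀ n ∈ KC Q J, |cf y n| ≤ E := fun n hn => cf_bound hJ1 hr0 hJR hy hn
  have hKCcard : ((KC Q J).card : ℝ) ≤ N := by
    rw [hN]
    exact_mod_cast Finset.card_filter_le _ _
  have hS1 : ∑ n ∈ KC Q J, |cf y n| ≤ N * E := by
    calc ∑ n ∈ KC Q J, |cf y n| ≤ ∑ n ∈ KC Q J, E := Finset.sum_le_sum hcf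
      _ = (KC Q J).card * E := by rw [Finset.sum_const, nsmul_eq_mul]
      _ ≤ N * E := by gcongr
  -- power of U
  have hUpow : U ^ (3 * Q - 1) ≤ N * E := by
    have h1 : U ≤ Real.sqrt J := by
      rw [hU]
      unfold UU
      apply Real.sqrt_le_sqrt
      exact div_le_self hJ0.le (by exact_mod_cast hj1)
    have h2 : U ^ (3 * Q - 1) ≤ (J : ℝ) ^ ((3 * (Q : ℝ) - 1) / 2) := by
      calc U ^ (3 * Q - 1) ≤ (Real.sqrt J) ^ (3 * Q - 1) := by gcongr
        _ = (J : ℝ) ^ ((3 * (Q : ℝ) - 1) / 2) := by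
          rw [Real.sqrt_eq_rpow, ← Real.rpow_natCast, ← Real.rpow_mul hJ0.le]
          congr 1
          rw [Nat.cast_sub (by omega)]
          push_cast
          ring
    refine h2.trans ?_
    have h3 : (J : ℝ) ^ (2 * Q - 1) = (J : ℝ) ^ (2 * (Q : ℝ) - 1) := by
      rw [← Real.rpow_natCast, Nat.cast_sub (by omega)]
      push_cast
      ring_nf
    calc (J : ℝ) ^ ((3 * (Q : ℝ) - 1) / 2) ≤ (J : ℝ) ^ ((2 * (Q : ℝ) - 1) + (-(2 * Q * r))) := by
          apply Real.rpow_le_rpow_of_exponent_le hJ1r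
          have hQ8 : (8 : ℝ) ≤ Q := by exact_mod_cast hQ
          nlinarith
      _ = (J : ℝ) ^ (2 * Q - 1) * E := by
          rw [Real.rpow_add hJ0, ← h3]
      _ ≤ N * E := by gcongr
  -- single response
  set L : ℝ := C * Real.log J / N with hL
  have hL0 : 0 ≤ L := by
    rw [hL]
    have : 0 ≤ Real.log J := by linarith
    positivity
  have hresp : ∀ p ∈ (CC Q J).filter Nat.Prime, |x p| ≤
      ((j₀ : ℝ) ^ Q * 2 ^ (3 * Q + 2) + 2) * (N * E) * L := by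
    intro p hp
    rw [Finset.mem_filter] at hp
    obtain ⟨hpC, hpp⟩ := hp
    have hwp : ∀ u, U ≤ u → u ≤ U' → |w p u| ≤ L := fun u h1 h2 => hw.bound J hjJ p hpC u h1 h2
    obtain ⟨hv1, hv2⟩ := vv_mem (j₀ := j₀) hQ1 hpC
    have hv0 : 0 < vv Q j₀ p := by linarith
    rw [ho.resp J hjJ p hpC hpp, abs_div, abs_of_pos (by positivity : 0 < vv Q j₀ p ^ 2),
      div_le_iff₀ (by positivity)]
    -- the integral
    have hf : ∀ u, U < u → u ≤ U' → |f u| ≤ (j₀ : ℝ) ^ Q * U' ^ (3 * Q + 2) := by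
      intro u h1 h2
      have hu0 : 0 ≤ u := by linarith
      refine (ho.fbd u hu0).trans ?_
      gcongr
      unfold NN
      rw [if_neg (by linarith)]
      gcongr
    have hint : |∫ u in U..U', f u * w p u| ≤ (j₀ : ℝ) ^ Q * 2 ^ (3 * Q + 2) * (N * E) * L * U ^ 2 := by
      have h1 : ‖∫ u in U..U', f u * w p u‖ ≤ ((j₀ : ℝ) ^ Q * U' ^ (3 * Q + 2)) * L * |U' - U| := by
        apply intervalIntegral.norm_integral_le_of_norm_le_const
        intro u hu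
        rw [Set.uIoc_of_le hUU'] at hu
        rw [Real.norm_eq_abs, abs_mul]
        have h2 := hf u hu.1 hu.2
        have h3 := hwp u hu.1.le hu.2
        gcongr
      rw [Real.norm_eq_abs] at h1
      refine h1.trans ?_
      have hdiff : |U' - U| * U ≤ 1 := by
        rw [abs_of_nonneg (by linarith)]
        have h2 : U' ^ 2 - U ^ 2 = 1 / j₀ := by
          rw [hU, hU', UU_sq, UU_sq]
          push_cast
          ring
        have h3 : (1 : ℝ) / j₀ ≤ 1 := by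
          rw [div_le_one (by exact_mod_cast hj1)]
          exact_mod_cast hj1
        nlinarith
      have hU'p : U' ^ (3 * Q + 2) ≤ 2 ^ (3 * Q + 2) * U ^ (3 * Q + 2) := by
        rw [← mul_pow]
        gcongr
      have hsplit : U ^ (3 * Q + 2) = U ^ (3 * Q - 1) * U ^ 3 := by
        rw [← pow_add]
        congr 1
        omega
      calc ((j₀ : ℝ) ^ Q * U' ^ (3 * Q + 2)) * L * |U' - U|
          ≤ ((j₀ : ℝ) ^ Q * (2 ^ (3 * Q + 2) * U ^ (3 * Q + 2))) * L * |U' - U| := by gcongr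
        _ = ((j₀ : ℝ) ^ Q * 2 ^ (3 * Q + 2)) * U ^ (3 * Q - 1) * L * U ^ 2 * (|U' - U| * U) := by
          rw [hsplit]; ring
        _ ≤ ((j₀ : ℝ) ^ Q * 2 ^ (3 * Q + 2)) * (N * E) * L * U ^ 2 * 1 := by gcongr
        _ = _ := by ring
    have hsum : |∑ n ∈ KC Q J, cf y n * (vv Q j₀ n) ^ 2 * w p (vv Q j₀ n)| ≤ 2 * (N * E) * L * U ^ 2 := by
      refine (Finset.abs_sum_le_sum_abs _ _).trans ?_
      calc ∑ n ∈ KC Q J, |cf y n * (vv Q j₀ n) ^ 2 * w p (vv Q j₀ n)|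
          ≤ ∑ n ∈ KC Q J, |cf y n| * (2 * U ^ 2 * L) := by
            apply Finset.sum_le_sum
            intro n hn
            have hnC : n ∈ CC Q J := (Finset.mem_filter.1 hn).1
            obtain ⟨h1, h2⟩ := vv_mem (j₀ := j₀) hQ1 hnC
            rw [abs_mul, abs_mul, abs_of_nonneg (by positivity : 0 ≤ vv Q j₀ n ^ 2), mul_assoc]
            have h3 : vv Q j₀ n ^ 2 ≤ 2 * U ^ 2 := by
              have h4 := vv_nonneg Q j₀ n
              calc vv Q j₀ n ^ 2 ≤ U' ^ 2 := by gcongr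
                _ ≤ _ := hU'2
            have h5 := hwp _ h1 h2
            gcongr
        _ = (∑ n ∈ KC Q J, |cf y n|) * (2 * U ^ 2 * L) := by rw [Finset.sum_mul]
        _ ≤ (N * E) * (2 * U ^ 2 * L) := by gcongr
        _ = _ := by ring
    have hvU : U ^ 2 ≤ vv Q j₀ p ^ 2 := by gcongr
    calc |(∫ u in U..U', f u * w p u) - ∑ n ∈ KC Q J, cf y n * (vv Q j₀ n) ^ 2 * w p (vv Q j₀ n)|
        ≤ |∫ u in U..U', f u * w p u| + |∑ n ∈ KC Q J, cf y n * (vv Q j₀ n) ^ 2 * w p (vv Q j₀ n)| :=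
          abs_sub _ _
      _ ≤ (j₀ : ℝ) ^ Q * 2 ^ (3 * Q + 2) * (N * E) * L * U ^ 2 + 2 * (N * E) * L * U ^ 2 := by gcongr
      _ = ((j₀ : ℝ) ^ Q * 2 ^ (3 * Q + 2) + 2) * (N * E) * L * U ^ 2 := by ring
      _ ≤ _ := by gcongr
  have hfcard : (((CC Q J).filter Nat.Prime).card : ℝ) ≤ N := by
    rw [hN]
    exact_mod_cast Finset.card_filter_le _ _
  have hS2 : ∑ p ∈ (CC Q J).filter Nat.Prime, |x p| ≤
      ((j₀ : ℝ) ^ Q * 2 ^ (3 * Q + 2) + 2) * C * N * E * Real.log J := by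
    calc ∑ p ∈ (CC Q J).filter Nat.Prime, |x p|
        ≤ ∑ p ∈ (CC Q J).filter Nat.Prime, ((j₀ : ℝ) ^ Q * 2 ^ (3 * Q + 2) + 2) * (N * E) * L :=
          Finset.sum_le_sum hresp
      _ = ((CC Q J).filter Nat.Prime).card * (((j₀ : ℝ) ^ Q * 2 ^ (3 * Q + 2) + 2) * (N * E) * L) := by
          rw [Finset.sum_const, nsmul_eq_mul]
      _ ≤ N * (((j₀ : ℝ) ^ Q * 2 ^ (3 * Q + 2) + 2) * (N * E) * L) := by gcongr
      _ = _ := by
          rw [hL]
          field_simp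
  have hS1' : ∑ n ∈ KC Q J, |cf y n| ≤ N * E * Real.log J := by
    refine hS1.trans (le_mul_of_one_le_right (by positivity) hlog)
  calc ∑ n ∈ KC Q J, |cf y n| + ∑ p ∈ (CC Q J).filter Nat.Prime, |x p|
      ≤ N * E * Real.log J + ((j₀ : ℝ) ^ Q * 2 ^ (3 * Q + 2) + 2) * C * N * E * Real.log J := by
        gcongr
    _ = _ := by ring

end Pool.Agent.H475R3.ET
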